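import Pool.Agent.W734.TWB.Stms

/-!
# TWB-SYM: the trial function is smooth, compactly supported and symmetric
-/

set_option autoImplicit false

noncomputable section

namespace Pool.Agent.W742.TWB

open Pool.Agent.W734.TWB

open MeasureTheory Set Filter Metric

theorem prod2_filter {N : ℕ} (g : Fin N → Fin N → ℝ) :
    (∏ i, ∏ j ∈ (Finset.univ : Finset (Fin N)).filter (fun j => i < j), g i j)
      = ∏ i, ∏ j, (if i < j then g i j else 1) := by
  refine Finset.prod_congr rfl fun i _ => ?_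
  rw [Finset.prod_filter]

theorem prod3_filter {N : ℕ} (F : Fin N → Fin N → Fin N → ℝ) :
    (∏ i, ∏ j ∈ (Finset.univ : Finset (Fin N)).filter (fun j => i < j),
      ∏ k ∈ (Finset.univ : Finset (Fin N)).filter (fun k => j < k), F i j k)
      = ∏ i, ∏ j, ∏ k, (if i < j ∧ j < k then F i j k else 1) := by
  refine Finset.prod_congr rfl fun i _ => ?_
  rw [Finset.prod_filter]
  refine Finset.prod_congr rfl fun j _ => ?_
  by_cases h : i < j
  · rw [if_pos h, Finset.prod_filter]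
    refine Finset.prod_congr rfl fun k _ => ?_
    by_cases h' : j < k
    · rw [if_pos h', if_pos ⟨h, h'⟩]
    · rw [if_neg h', if_neg (fun q => h' q.2)]
  · rw [if_neg h]
    symm
    refine Finset.prod_eq_one fun k _ => ?_
    rw [if_neg (fun q => h q.1)]

theorem pair_sq {N : ℕ} (g : Fin N → Fin N → ℝ) (hs : ∀ i j, g i j = g j i) :
    (∏ i, ∏ j, (if i < j then g i j else 1)) ^ 2 = ∏ i, ∏ j, (if i ≠ j then g i j else 1) := by
  have e1 : (∏ i, ∏ j, (if i < j then g i j else 1))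
      = ∏ i : Fin N, ∏ j : Fin N, (if j < i then g j i else 1) := Finset.prod_comm
  have e2 : (∏ i, ∏ j, (if i < j then g i j else 1)) ^ 2
      = (∏ i, ∏ j, (if i < j then g i j else 1))
        * ∏ i : Fin N, ∏ j : Fin N, (if j < i then g j i else 1) := by
    rw [← e1, sq]
  rw [e2, ← Finset.prod_mul_distrib]
  refine Finset.prod_congr rfl fun i _ => ?_
  rw [← Finset.prod_mul_distrib]
  refine Finset.prod_congr rfl fun j _ => ?_
  rcases lt_trichotomy i j with h | h | h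
  · rw [if_pos h, if_neg (not_lt.2 h.le), if_pos h.ne, mul_one]
  · subst h
    simp
  · rw [if_neg (not_lt.2 h.le), if_pos h, if_pos h.ne', one_mul, hs]

theorem pair_inv {N : ℕ} (g : Fin N → Fin N → ℝ) (hs : ∀ i j, g i j = g j i)
    (h0 : ∀ i j, 0 ≤ g i j) (σ : Equiv.Perm (Fin N)) :
    (∏ i, ∏ j ∈ (Finset.univ : Finset (Fin N)).filter (fun j => i < j), g (σ i) (σ j))
      = ∏ i, ∏ j ∈ (Finset.univ : Finset (Fin N)).filter (fun j => i < j), g i j := by
  rw [prod2_filter (fun i j => g (σ i) (σ j)), prod2_filter g]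
  have p1 : 0 ≤ ∏ i, ∏ j, (if i < j then g (σ i) (σ j) else 1) := by
    refine Finset.prod_nonneg fun i _ => Finset.prod_nonneg fun j _ => ?_
    split_ifs
    · exact h0 _ _
    · exact zero_le_one
  have p2 : 0 ≤ ∏ i, ∏ j, (if i < j then g i j else 1) := by
    refine Finset.prod_nonneg fun i _ => Finset.prod_nonneg fun j _ => ?_
    split_ifs
    · exact h0 _ _
    · exact zero_le_one
  refine (pow_left_inj₀ p1 p2 (two_ne_zero)).1 ?_
  rw [pair_sq (fun i j => g (σ i) (σ j)) (fun i j => hs _ _), pair_sq g hs]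
  have e : ∀ i, (∏ j, (if i ≠ j then g (σ i) (σ j) else 1))
      = ∏ j, (if σ i ≠ j then g (σ i) j else 1) := by
    intro i
    rw [← Equiv.prod_comp σ (fun j => if σ i ≠ j then g (σ i) j else 1)]
    refine Finset.prod_congr rfl fun j _ => ?_
    have : (i ≠ j) ↔ (σ i ≠ σ j) := by simp
    by_cases h : i ≠ j
    · rw [if_pos h, if_pos (this.1 h)]
    · rw [if_neg h, if_neg (fun q => h (this.2 q))]
  rw [Finset.prod_congr rfl (fun i _ => e i)]
  exact Equiv.prod_comp σ (fun i => ∏ j, (if i ≠ j then g i j else 1))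

/-- one increasing triple -/
def h1 {N : ℕ} (F : Fin N → Fin N → Fin N → ℝ) (i j k : Fin N) : ℝ :=
  if i < j ∧ j < k then F i j k else 1

/-- distinct triples -/
def hd {N : ℕ} (F : Fin N → Fin N → Fin N → ℝ) (i j k : Fin N) : ℝ :=
  if i ≠ j ∧ j ≠ k ∧ i ≠ k then F i j k else 1

theorem hd_eq {N : ℕ} (F : Fin N → Fin N → Fin N → ℝ)
    (s1 : ∀ i j k, F i j k = F j i k) (s2 : ∀ i j k, F i j k = F i k j) (i j k : Fin N) :
    hd F i j k = h1 F i j k * h1 F i k j * h1 F j i k * h1 F j k i * h1 F k i j * h1 F k j i := by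
  have a1 : F i k j = F i j k := (s2 i j k).symm
  have a2 : F j i k = F i j k := (s1 i j k).symm
  have a3 : F j k i = F i j k := by rw [s2 j k i, a2]
  have a4 : F k i j = F i j k := by rw [s1 k i j, a1]
  have a5 : F k j i = F i j k := by rw [s1 k j i, a3]
  unfold hd h1
  rw [a1, a2, a3, a4, a5]
  rcases lt_trichotomy i j with h | h | h
  · rcases lt_trichotomy j k with h' | h' | h'
    · have h3 := h.trans h'
      simp [h, h', h3, h.ne, h'.ne, h3.ne, h.not_gt, h'.not_gt, h3.not_gt]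
    · subst h'
      simp [h.not_gt]
    · rcases lt_trichotomy i k with h3 | h3 | h3
      · simp [h, h', h3, h.ne, h'.ne', h3.ne, h.not_gt, h'.not_gt, h3.not_gt]
      · subst h3
        simp [h.not_gt]
      · simp [h, h', h3, h.ne, h'.ne', h3.ne', h.not_gt, h'.not_gt, h3.not_gt]
  · subst h
    simp only [ne_eq, not_true_eq_false, false_and, if_false, lt_self_iff_false, and_false]
    rcases lt_trichotomy i k with h3 | h3 | h3
    · simp [h3.not_gt]
    · subst h3
      simp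
    · simp [h3.not_gt]
  · rcases lt_trichotomy j k with h' | h' | h'
    · rcases lt_trichotomy i k with h3 | h3 | h3
      · simp [h, h', h3, h.ne', h'.ne, h3.ne, h.not_gt, h'.not_gt, h3.not_gt]
      · subst h3
        simp [h.not_gt]
      · simp [h, h', h3, h.ne', h'.ne, h3.ne', h.not_gt, h'.not_gt, h3.not_gt]
    · subst h'
      simp [h.not_gt]
    · have h3 := h'.trans h
      simp [h, h', h3, h.ne', h'.ne', h3.ne', h.not_gt, h'.not_gt, h3.not_gt]

theorem trip_six {N : ℕ} (F : Fin N → Fin N → Fin N → ℝ)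
    (s1 : ∀ i j k, F i j k = F j i k) (s2 : ∀ i j k, F i j k = F i k j) :
    (∏ i, ∏ j, ∏ k, h1 F i j k) ^ 6 = ∏ i, ∏ j, ∏ k, hd F i j k := by
  have c2 : (∏ i, ∏ j, ∏ k, h1 F i k j) = ∏ i, ∏ j, ∏ k, h1 F i j k :=
    Finset.prod_congr rfl fun i _ => Finset.prod_comm
  have c3 : (∏ i, ∏ j, ∏ k, h1 F j i k) = ∏ i, ∏ j, ∏ k, h1 F i j k := Finset.prod_comm
  have c4 : (∏ i, ∏ j, ∏ k, h1 F j k i) = ∏ i, ∏ j, ∏ k, h1 F i j k := by
    rw [Finset.prod_comm]
    refine Finset.prod_congr rfl fun j _ => ?_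
    rw [Finset.prod_comm]
  have c5 : (∏ i, ∏ j, ∏ k, h1 F k i j) = ∏ i, ∏ j, ∏ k, h1 F i j k := by
    have : ∀ i : Fin N, (∏ j, ∏ k, h1 F k i j) = ∏ k, ∏ j, h1 F k i j :=
      fun i => Finset.prod_comm
    rw [Finset.prod_congr rfl (fun i _ => this i)]
    exact Finset.prod_comm
  have c6 : (∏ i, ∏ j, ∏ k, h1 F k j i) = ∏ i, ∏ j, ∏ k, h1 F i j k := by
    have : ∀ i : Fin N, (∏ j, ∏ k, h1 F k j i) = ∏ k, ∏ j, h1 F k j i :=
      fun i => Finset.prod_comm
    rw [Finset.prod_congr rfl (fun i _ => this i), Finset.prod_comm]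
    refine Finset.prod_congr rfl fun k _ => ?_
    exact Finset.prod_comm
  have e : (∏ i, ∏ j, ∏ k, hd F i j k)
      = (∏ i, ∏ j, ∏ k, h1 F i j k) * (∏ i, ∏ j, ∏ k, h1 F i k j)
        * (∏ i, ∏ j, ∏ k, h1 F j i k) * (∏ i, ∏ j, ∏ k, h1 F j k i)
        * (∏ i, ∏ j, ∏ k, h1 F k i j) * (∏ i, ∏ j, ∏ k, h1 F k j i) := by
    simp only [← Finset.prod_mul_distrib]
    refine Finset.prod_congr rfl fun i _ => Finset.prod_congr rfl fun j _ =>
      Finset.prod_congr rfl fun k _ => hd_eq F s1 s2 i j k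
  rw [e, c2, c3, c4, c5, c6]
  ring

theorem trip_inv {N : ℕ} (F : Fin N → Fin N → Fin N → ℝ)
    (s1 : ∀ i j k, F i j k = F j i k) (s2 : ∀ i j k, F i j k = F i k j)
    (h0 : ∀ i j k, 0 ≤ F i j k) (σ : Equiv.Perm (Fin N)) :
    (∏ i, ∏ j ∈ (Finset.univ : Finset (Fin N)).filter (fun j => i < j),
      ∏ k ∈ (Finset.univ : Finset (Fin N)).filter (fun k => j < k), F (σ i) (σ j) (σ k))
    = ∏ i, ∏ j ∈ (Finset.univ : Finset (Fin N)).filter (fun j => i < j),
      ∏ k ∈ (Finset.univ : Finset (Fin N)).filter (fun k => j < k), F i j k := by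
  rw [prod3_filter (fun i j k => F (σ i) (σ j) (σ k)), prod3_filter F]
  have p1 : 0 ≤ ∏ i, ∏ j, ∏ k, h1 (fun i j k => F (σ i) (σ j) (σ k)) i j k := by
    refine Finset.prod_nonneg fun i _ => Finset.prod_nonneg fun j _ =>
      Finset.prod_nonneg fun k _ => ?_
    unfold h1
    split_ifs
    · exact h0 _ _ _
    · exact zero_le_one
  have p2 : 0 ≤ ∏ i, ∏ j, ∏ k, h1 F i j k := by
    refine Finset.prod_nonneg fun i _ => Finset.prod_nonneg fun j _ =>
      Finset.prod_nonneg fun k _ => ?_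
    unfold h1
    split_ifs
    · exact h0 _ _ _
    · exact zero_le_one
  refine (pow_left_inj₀ p1 p2 (show (6 : ℕ) ≠ 0 by norm_num)).1 ?_
  rw [trip_six (fun i j k => F (σ i) (σ j) (σ k)) (fun i j k => s1 _ _ _)
    (fun i j k => s2 _ _ _), trip_six F s1 s2]
  have e0 : ∀ i j k, hd (fun i j k => F (σ i) (σ j) (σ k)) i j k = hd F (σ i) (σ j) (σ k) := by
    intro i j k
    unfold hd
    have : (i ≠ j ∧ j ≠ k ∧ i ≠ k) ↔ (σ i ≠ σ j ∧ σ j ≠ σ k ∧ σ i ≠ σ k) := by simp
    by_cases h : i ≠ j ∧ j ≠ k ∧ i ≠ k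
    · rw [if_pos h, if_pos (this.1 h)]
    · rw [if_neg h, if_neg (fun q => h (this.2 q))]
  simp only [e0]
  rw [Equiv.prod_comp σ (fun i => ∏ j, ∏ k, hd F i (σ j) (σ k))]
  refine Finset.prod_congr rfl fun i _ => ?_
  rw [Equiv.prod_comp σ (fun j => ∏ k, hd F i j (σ k))]
  refine Finset.prod_congr rfl fun j _ => ?_
  exact Equiv.prod_comp σ (fun k => hd F i j k)

theorem sym : S_JAB → S_SYM := by
  intro hJ u hu R1 R2 f1 f2 hf1 hf2 N
  obtain ⟨jd, -⟩ := hJ R1 R2 f1 f2 hf1 hf2 N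
  refine ⟨?_, ?_, ?_, ?_⟩
  · have c1 : ContDiff ℝ ((⊤ : ℕ∞) : WithTop ℕ∞) (fun x : Cfg N => ∏ i, u (x i)) := by
      refine contDiff_prod fun i _ => ?_
      exact hu.diff.comp (contDiff_apply ℝ E3 i)
    have c2 : ContDiff ℝ ((⊤ : ℕ∞) : WithTop ℕ∞)
        (fun x : Cfg N => ((JA f1 f2 Finset.univ x : ℝ) : ℂ)) :=
      Complex.ofRealCLM.contDiff.comp (jd Finset.univ)
    exact c1.mul c2
  · refine HasCompactSupport.intro (K := Set.pi Set.univ (fun _ : Fin N => tsupport u))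
      (isCompact_univ_pi fun _ => hu.supp) ?_
    intro x hx
    have : ∃ i, x i ∉ tsupport u := by
      by_contra hc
      push Not at hc
      exact hx (fun i _ => hc i)
    obtain ⟨i, hi⟩ := this
    have h0 : u (x i) = 0 := image_eq_zero_of_notMem_tsupport hi
    unfold Psi
    rw [Finset.prod_eq_zero (Finset.mem_univ i) h0, zero_mul]
  · intro σ x
    unfold Psi
    have q1 : (∏ i, u ((x ∘ σ) i)) = ∏ i, u (x i) := Equiv.prod_comp σ (fun i => u (x i))
    have q2 : JA f1 f2 Finset.univ (x ∘ σ) = JA f1 f2 Finset.univ x := by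
      unfold JA
      have r1 := pair_inv (fun i j => f1 ((N : ℝ) • (x i - x j))) (by
        intro i j
        rw [← hf1.even, ← smul_neg, neg_sub]) (fun i j => hf1.nonneg _) σ
      have r2 := trip_inv (fun i j k => f2 (Real.sqrt N • (x i - x j, x i - x k))) (by
        intro i j k
        have := hf2.symm3 (Real.sqrt N • x i) (Real.sqrt N • x j) (Real.sqrt N • x k)
        simpa only [Prod.smul_mk, smul_sub] using this) (by
        intro i j k
        simp only [Prod.smul_mk]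
        exact hf2.symm _ _) (fun i j k => hf2.nonneg _) σ
      simp only [Function.comp_apply]
      rw [r1, r2]
    rw [q1, q2]
  · intro x
    unfold Psi wu
    rw [norm_mul, mul_pow, Complex.norm_real, Real.norm_eq_abs, sq_abs, norm_prod,
      ← Finset.prod_pow]

end Pool.Agent.W742.TWB
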